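import Mathlib

/-!
# A pendant vertex attached at an extremum of the Fiedler vector need not be an extremum

We give an unweighted connected graph on 11 vertices whose Fiedler vector has a unique (strict)
maximum at a vertex `v`, and a positive weight `x`, such that after attaching a pendant edge of
weight `x` at `v` the new vertex is not an extremum of the new Fiedler vector.
-/

namespace Pool.Agent.Results.MP_a456c8_co.PendantNotExtremum

open Matrix

/-- The (unnormalised) Laplacian matrix `L = D - W` of a graph with edge weights `W`, where `D` is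
the diagonal matrix with entries `D i i = ∑ j, W i j`. -/
def laplacian {V : Type} [Fintype V] [DecidableEq V] (W : V → V → ℝ) : Matrix V V ℝ :=
  Matrix.diagonal (fun i => ∑ j, W i j) - Matrix.of W

open Classical in
/-- The edge weights of an unweighted graph: `1` on edges and `0` otherwise. -/
noncomputable def unitWeight {V : Type} (G : SimpleGraph V) : V → V → ℝ :=
  fun i j => if G.Adj i j then 1 else 0

open Classical in
/-- The edge weights of the graph obtained from the unweighted graph `G` by adding a new vertex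
(here `none : Option V`) and one new edge of weight `x`, joining it to the vertex `v`. -/
noncomputable def pendantWeight {V : Type} (G : SimpleGraph V) (v : V) (x : ℝ) :
    Option V → Option V → ℝ
  | some i, some j => if G.Adj i j then 1 else 0
  | some i, none => if i = v then x else 0
  | none, some j => if j = v then x else 0
  | none, none => 0

/-- `μ` is the second smallest Laplacian eigenvalue `λ₂` of the weighted graph, and both `λ₁ = 0`
and `λ₂ = μ` are simple: the kernel of `L` consists of the constant vectors, `μ` is the least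
nonzero eigenvalue of `L`, it is positive, and its eigenspace is one-dimensional. -/
structure IsSimpleLambdaTwo {V : Type} [Fintype V] [DecidableEq V] (W : V → V → ℝ) (μ : ℝ) :
    Prop where
  kernel : ∀ f : V → ℝ, laplacian W *ᵥ f = 0 → ∃ c : ℝ, f = fun _ => c
  pos : 0 < μ
  eigenvalue : ∃ f : V → ℝ, f ≠ 0 ∧ laplacian W *ᵥ f = μ • f
  least : ∀ (ν : ℝ) (f : V → ℝ), f ≠ 0 → laplacian W *ᵥ f = ν • f → ν = 0 ∨ μ ≤ ν
  simple : ∀ f g : V → ℝ, f ≠ 0 → laplacian W *ᵥ f = μ • f → laplacian W *ᵥ g = μ • g →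
    ∃ c : ℝ, g = c • f

/-- `Φ` is a Fiedler vector of the weighted graph, whose second eigenvalue `λ₂` is simple: a unit
vector that is an eigenvector of the Laplacian for `λ₂`. -/
def IsFiedlerVector {V : Type} [Fintype V] [DecidableEq V] (W : V → V → ℝ) (Φ : V → ℝ) : Prop :=
  ∃ μ : ℝ, IsSimpleLambdaTwo W μ ∧ laplacian W *ᵥ Φ = μ • Φ ∧ ∑ i, Φ i ^ 2 = 1

/-- The vertex `u` is an extremum of `Φ`: a maximum or a minimum. -/
def IsExtremum {V : Type} (Φ : V → ℝ) (u : V) : Prop :=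
  (∀ i, Φ i ≤ Φ u) ∨ (∀ i, Φ u ≤ Φ i)

section general

variable {V : Type} [Fintype V] [DecidableEq V]

theorem lap_apply (W : V → V → ℝ) (f : V → ℝ) (i : V) :
    (laplacian W *ᵥ f) i = ∑ j, W i j * (f i - f j) := by
  rw [laplacian, Matrix.sub_mulVec, Pi.sub_apply, Matrix.mulVec_diagonal]
  simp only [Matrix.mulVec, dotProduct, Matrix.of_apply, mul_sub, Finset.sum_sub_distrib,
    Finset.sum_mul]

theorem lap_symm (W : V → V → ℝ) (hW : ∀ i j, W i j = W j i) (f g : V → ℝ) :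
    f ⬝ᵥ (laplacian W *ᵥ g) = g ⬝ᵥ (laplacian W *ᵥ f) := by
  have hT : (laplacian W)ᵀ = laplacian W := by
    ext i j
    simp only [laplacian, Matrix.transpose_apply, Matrix.sub_apply, Matrix.of_apply]
    rw [hW j i]
    by_cases h : i = j
    · subst h; rfl
    · rw [Matrix.diagonal_apply_ne _ h, Matrix.diagonal_apply_ne _ (Ne.symm h)]
  rw [Matrix.dotProduct_mulVec, ← Matrix.mulVec_transpose, hT, dotProduct_comm]

theorem lap_one (W : V → V → ℝ) : laplacian W *ᵥ (1 : V → ℝ) = 0 := by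
  funext i
  rw [lap_apply]
  simp

omit [DecidableEq V] in
theorem dot_self_eq_zero {f : V → ℝ} (h : f ⬝ᵥ f ≤ 0) : f = 0 := by
  have h0 : 0 ≤ f ⬝ᵥ f := by
    unfold dotProduct
    exact Finset.sum_nonneg (fun i _ => mul_self_nonneg _)
  exact dotProduct_self_eq_zero.1 (le_antisymm h h0)

/-- The certificate: if `s |h|² ≤ ⟨h, L h⟩` for all `h` orthogonal to `1` and to some vector `p`,
then there is only one eigenvector orthogonal to `1` with eigenvalue below `s`. -/
theorem only_one (W : V → V → ℝ) (p f g : V → ℝ) (μ ν s : ℝ)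
    (hf : laplacian W *ᵥ f = μ • f) (hf1 : 1 ⬝ᵥ f = 0) (hfne : f ≠ 0) (hμs : μ < s) (hνs : ν < s)
    (cert : ∀ h : V → ℝ, 1 ⬝ᵥ h = 0 → p ⬝ᵥ h = 0 → s * (h ⬝ᵥ h) ≤ h ⬝ᵥ (laplacian W *ᵥ h))
    (hg : laplacian W *ᵥ g = ν • g) (hg1 : 1 ⬝ᵥ g = 0) (hfg : f ⬝ᵥ g = 0) : g = 0 := by
  have hgf : g ⬝ᵥ f = 0 := by rw [dotProduct_comm]; exact hfg
  set α : ℝ := p ⬝ᵥ g with hα
  set β : ℝ := p ⬝ᵥ f with hβ
  have hβne : β ≠ 0 := by
    intro h0
    have h1 := cert f hf1 h0
    rw [hf, dotProduct_smul, smul_eq_mul] at h1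
    apply hfne
    apply dot_self_eq_zero
    nlinarith
  have h1 := cert (α • f - β • g)
    (by rw [dotProduct_sub, dotProduct_smul, dotProduct_smul, hf1, hg1]; simp)
    (by rw [dotProduct_sub, dotProduct_smul, dotProduct_smul, ← hα, ← hβ, smul_eq_mul, smul_eq_mul]
        ring)
  rw [Matrix.mulVec_sub, Matrix.mulVec_smul, Matrix.mulVec_smul, hf, hg] at h1
  simp only [dotProduct_sub, sub_dotProduct, smul_dotProduct, dotProduct_smul, smul_eq_mul, hfg,
    hgf] at h1
  have hff : 0 ≤ f ⬝ᵥ f := by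
    unfold dotProduct
    exact Finset.sum_nonneg (fun i _ => mul_self_nonneg _)
  have hgg : 0 ≤ g ⬝ᵥ g := by
    unfold dotProduct
    exact Finset.sum_nonneg (fun i _ => mul_self_nonneg _)
  have h2 : (s - μ) * (α ^ 2 * (f ⬝ᵥ f)) + (s - ν) * (β ^ 2 * (g ⬝ᵥ g)) ≤ 0 := by
    nlinarith
  have h3 : 0 ≤ (s - μ) * (α ^ 2 * (f ⬝ᵥ f)) :=
    mul_nonneg (by linarith) (mul_nonneg (sq_nonneg _) hff)
  have h4 : (s - ν) * (β ^ 2 * (g ⬝ᵥ g)) ≤ 0 := by linarith
  have h5 : β ^ 2 * (g ⬝ᵥ g) ≤ 0 := by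
    by_contra hcon
    push Not at hcon
    have := mul_pos (by linarith : 0 < s - ν) hcon
    linarith
  have hβ2 : 0 < β ^ 2 := by positivity
  apply dot_self_eq_zero
  by_contra hcon
  push Not at hcon
  have := mul_pos hβ2 hcon
  linarith

theorem simple_of_cert (W : V → V → ℝ) (hW : ∀ i j, W i j = W j i) (p f : V → ℝ) (μ s : ℝ)
    (hμ : 0 < μ) (hf : laplacian W *ᵥ f = μ • f) (hf1 : 1 ⬝ᵥ f = 0) (hfne : f ≠ 0) (hμs : μ < s)
    (cert : ∀ h : V → ℝ, 1 ⬝ᵥ h = 0 → p ⬝ᵥ h = 0 → s * (h ⬝ᵥ h) ≤ h ⬝ᵥ (laplacian W *ᵥ h)) :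
    IsSimpleLambdaTwo W μ := by
  have hsum : ∀ (ν : ℝ) (g : V → ℝ), laplacian W *ᵥ g = ν • g → ν ≠ 0 → 1 ⬝ᵥ g = 0 := by
    intro ν g hg hν
    have h1 := lap_symm W hW 1 g
    rw [lap_one, hg, dotProduct_smul, dotProduct_zero, smul_eq_mul] at h1
    rcases mul_eq_zero.1 h1 with h | h
    · exact absurd h hν
    · exact h
  have horth : ∀ (ν : ℝ) (g : V → ℝ), laplacian W *ᵥ g = ν • g → ν ≠ μ → f ⬝ᵥ g = 0 := by
    intro ν g hg hν
    have h1 := lap_symm W hW f g
    rw [hf, hg, dotProduct_smul, dotProduct_smul, smul_eq_mul, smul_eq_mul,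
      dotProduct_comm g f] at h1
    have h2 : (ν - μ) * (f ⬝ᵥ g) = 0 := by linarith
    rcases mul_eq_zero.1 h2 with h | h
    · exact absurd (by linarith) hν
    · exact h
  refine ⟨?_, hμ, ⟨f, hfne, hf⟩, ?_, ?_⟩
  · -- the kernel consists of constants
    intro g hg
    by_cases hV : Nonempty V
    · have hcard : (0 : ℝ) < Fintype.card V := by exact_mod_cast Fintype.card_pos
      set c : ℝ := (1 ⬝ᵥ g) / Fintype.card V with hc
      have h11 : (1 : V → ℝ) ⬝ᵥ 1 = Fintype.card V := by simp [dotProduct]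
      have e1 : laplacian W *ᵥ (g - c • 1) = (0 : ℝ) • (g - c • 1) := by
        rw [Matrix.mulVec_sub, Matrix.mulVec_smul, lap_one, hg]; simp
      have e2 : 1 ⬝ᵥ (g - c • (1 : V → ℝ)) = 0 := by
        rw [dotProduct_sub, dotProduct_smul, h11, smul_eq_mul, hc]
        field_simp
        ring
      have e3 : g - c • (1 : V → ℝ) = 0 :=
        only_one W p f _ μ 0 s hf hf1 hfne hμs (by linarith) cert e1 e2
          (horth 0 _ e1 hμ.ne)
      refine ⟨c, ?_⟩
      have e4 := sub_eq_zero.1 e3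
      rw [e4]
      funext i
      simp
    · refine ⟨0, ?_⟩
      funext i
      exact absurd ⟨i⟩ hV
  · intro ν g hgne hg
    by_contra hcon
    push Not at hcon
    obtain ⟨hν0, hνμ⟩ := hcon
    exact hgne (only_one W p f g μ ν s hf hf1 hfne hμs (by linarith) cert hg
      (hsum ν g hg hν0) (horth ν g hg hνμ.ne))
  · -- the eigenspace of `μ` is spanned by `f`, hence by any nonzero eigenvector
    have key : ∀ g : V → ℝ, laplacian W *ᵥ g = μ • g → ∃ c : ℝ, g = c • f := by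
      intro g hg
      have hff : f ⬝ᵥ f ≠ 0 := fun h => hfne (dotProduct_self_eq_zero.1 h)
      refine ⟨(f ⬝ᵥ g) / (f ⬝ᵥ f), ?_⟩
      set c : ℝ := (f ⬝ᵥ g) / (f ⬝ᵥ f) with hc
      have e1 : laplacian W *ᵥ (g - c • f) = μ • (g - c • f) := by
        rw [Matrix.mulVec_sub, Matrix.mulVec_smul, hf, hg, smul_sub, smul_comm]
      have e2 : f ⬝ᵥ (g - c • f) = 0 := by
        rw [dotProduct_sub, dotProduct_smul, smul_eq_mul, hc]
        field_simp
        ring
      exact sub_eq_zero.1 (only_one W p f _ μ μ s hf hf1 hfne hμs hμs cert e1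
        (hsum μ _ e1 hμ.ne') e2)
    intro g g' hgne hg hg'
    obtain ⟨a, ha⟩ := key g hg
    obtain ⟨b, hb⟩ := key g' hg'
    have ha0 : a ≠ 0 := by
      rintro rfl
      exact hgne (by rw [ha, zero_smul])
    refine ⟨b / a, ?_⟩
    rw [ha, hb, smul_smul]
    congr 1
    field_simp

/-- normalisation of an eigenvector -/
theorem fiedler_of_cert (W : V → V → ℝ) (hW : ∀ i j, W i j = W j i) (p f : V → ℝ) (μ s : ℝ)
    (hμ : 0 < μ) (hf : laplacian W *ᵥ f = μ • f) (hf1 : 1 ⬝ᵥ f = 0) (hfne : f ≠ 0) (hμs : μ < s)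
    (cert : ∀ h : V → ℝ, 1 ⬝ᵥ h = 0 → p ⬝ᵥ h = 0 → s * (h ⬝ᵥ h) ≤ h ⬝ᵥ (laplacian W *ᵥ h)) :
    ∃ c : ℝ, 0 < c ∧ IsFiedlerVector W (c • f) := by
  have hff : 0 < f ⬝ᵥ f := by
    by_contra hcon
    push Not at hcon
    exact hfne (dot_self_eq_zero hcon)
  refine ⟨1 / Real.sqrt (f ⬝ᵥ f), by positivity, μ,
    simple_of_cert W hW p f μ s hμ hf hf1 hfne hμs cert, ?_, ?_⟩
  · rw [Matrix.mulVec_smul, hf, smul_comm]
  · have h1 : ∀ i, ((1 / Real.sqrt (f ⬝ᵥ f)) • f) i ^ 2 = (f ⬝ᵥ f)⁻¹ * (f i * f i) := by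
      intro i
      rw [Pi.smul_apply, smul_eq_mul, mul_pow, div_pow, one_pow, Real.sq_sqrt hff.le, one_div]
      ring
    rw [Finset.sum_congr rfl (fun i _ => h1 i), ← Finset.mul_sum]
    exact inv_mul_cancel₀ hff.ne'

end general

/-! ### The example -/

/-- the adjacency matrix of the example -/
def A : Fin 11 → Fin 11 → ℕ :=
  ![![0,1,1,0,1,0,0,0,0,1,0],
     ![1,0,0,0,0,1,1,0,0,0,1],
     ![1,0,0,1,0,1,0,1,1,0,0],
     ![0,0,1,0,0,0,0,0,1,0,0],
     ![1,0,0,0,0,0,1,0,1,0,1],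
     ![0,1,1,0,0,0,0,0,0,0,0],
     ![0,1,0,0,1,0,0,1,1,1,0],
     ![0,0,1,0,0,0,1,0,1,0,1],
     ![0,0,1,1,1,0,1,1,0,1,0],
     ![1,0,0,0,0,0,1,0,1,0,1],
     ![0,1,0,0,1,0,0,1,0,1,0]]

theorem A_symm : ∀ i j, A i j = A j i := by decide

theorem A_val : ∀ i j, A i j = 0 ∨ A i j = 1 := by decide

theorem A_diag : ∀ i, A i i ≠ 1 := by decide

/-- the example graph -/
def G : SimpleGraph (Fin 11) where
  Adj i j := A i j = 1
  symm := ⟨fun i j h => by rw [A_symm]; exact h⟩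
  loopless := ⟨fun i h => A_diag i h⟩

theorem unitWeight_eq (i j : Fin 11) : unitWeight G i j = (A i j : ℝ) := by
  unfold unitWeight
  by_cases h : A i j = 1
  · have h' : G.Adj i j := h
    rw [if_pos h', h]; simp
  · have h0 : A i j = 0 := (A_val i j).resolve_right h
    have h' : ¬ G.Adj i j := h
    rw [if_neg h', h0]; simp

theorem pendantWeight_eq (x : ℝ) (i j : Fin 11) :
    pendantWeight G 1 x (some i) (some j) = (A i j : ℝ) := unitWeight_eq i j

theorem energy (f : Fin 11 → ℝ) : ∑ i, f i * ∑ j, (A i j : ℝ) * (f i - f j) =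
    (f 0 - f 1) ^ 2 + (f 0 - f 2) ^ 2 + (f 0 - f 4) ^ 2 + (f 0 - f 9) ^ 2 + (f 1 - f 5) ^ 2 + (f 1 - f 6) ^ 2 + (f 1 - f 10) ^ 2 + (f 2 - f 3) ^ 2 + (f 2 - f 5) ^ 2 + (f 2 - f 7) ^ 2 + (f 2 - f 8) ^ 2 + (f 3 - f 8) ^ 2 + (f 4 - f 6) ^ 2 + (f 4 - f 8) ^ 2 + (f 4 - f 10) ^ 2 + (f 6 - f 7) ^ 2 + (f 6 - f 8) ^ 2 + (f 6 - f 9) ^ 2 + (f 7 - f 8) ^ 2 + (f 7 - f 10) ^ 2 + (f 8 - f 9) ^ 2 + (f 9 - f 10) ^ 2 := by
  simp [A, Fin.sum_univ_succ]
  ring

theorem cert_one (a0 a1 a2 a3 a4 a5 a6 a7 a8 a9 a10 : ℝ)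
    (h1 : a0 + a1 + a2 + a3 + a4 + a5 + a6 + a7 + a8 + a9 + a10 = 0)
    (h2 : a0 + 2 * a1 + (-1) * a2 + (-6) * a3 + a4 + a5 + a6 + (-1) * a8 + a9 + a10 = 0) :
    (8/5) * (a0 ^ 2 + a1 ^ 2 + a2 ^ 2 + a3 ^ 2 + a4 ^ 2 + a5 ^ 2 + a6 ^ 2 + a7 ^ 2 + a8 ^ 2 + a9 ^ 2 + a10 ^ 2) ≤ (a0 - a1) ^ 2 + (a0 - a2) ^ 2 + (a0 - a4) ^ 2 + (a0 - a9) ^ 2 + (a1 - a5) ^ 2 + (a1 - a6) ^ 2 + (a1 - a10) ^ 2 + (a2 - a3) ^ 2 + (a2 - a5) ^ 2 + (a2 - a7) ^ 2 + (a2 - a8) ^ 2 + (a3 - a8) ^ 2 + (a4 - a6) ^ 2 + (a4 - a8) ^ 2 + (a4 - a10) ^ 2 + (a6 - a7) ^ 2 + (a6 - a8) ^ 2 + (a6 - a9) ^ 2 + (a7 - a8) ^ 2 + (a7 - a10) ^ 2 + (a8 - a9) ^ 2 + (a9 - a10) ^ 2 := by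
  have key : (a0 - a1) ^ 2 + (a0 - a2) ^ 2 + (a0 - a4) ^ 2 + (a0 - a9) ^ 2 + (a1 - a5) ^ 2 + (a1 - a6) ^ 2 + (a1 - a10) ^ 2 + (a2 - a3) ^ 2 + (a2 - a5) ^ 2 + (a2 - a7) ^ 2 + (a2 - a8) ^ 2 + (a3 - a8) ^ 2 + (a4 - a6) ^ 2 + (a4 - a8) ^ 2 + (a4 - a10) ^ 2 + (a6 - a7) ^ 2 + (a6 - a8) ^ 2 + (a6 - a9) ^ 2 + (a7 - a8) ^ 2 + (a7 - a10) ^ 2 + (a8 - a9) ^ 2 + (a9 - a10) ^ 2 - (8/5) * (a0 ^ 2 + a1 ^ 2 + a2 ^ 2 + a3 ^ 2 + a4 ^ 2 + a5 ^ 2 + a6 ^ 2 + a7 ^ 2 + a8 ^ 2 + a9 ^ 2 + a10 ^ 2) +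
      1 * (a0 + a1 + a2 + a3 + a4 + a5 + a6 + a7 + a8 + a9 + a10) ^ 2 + 1 * (a0 + 2 * a1 + (-1) * a2 + (-6) * a3 + a4 + a5 + a6 + (-1) * a8 + a9 + a10) ^ 2 =
      (22/5) * (a0 + (5/11) * a1 + (-5/22) * a2 + (-25/22) * a3 + (5/22) * a4 + (5/11) * a5 + (5/11) * a6 + (5/22) * a7 + (5/22) * a9 + (5/11) * a10) ^ 2 +
      (357/55) * (a1 + (-10/119) * a2 + (-160/119) * a3 + (20/51) * a4 + (20/119) * a5 + (20/119) * a6 + (10/119) * a7 + (-55/357) * a8 + (20/51) * a9 + (20/119) * a10) ^ 2 +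
      (6101/1190) * (a2 + (4915/6101) * a3 + (525/6101) * a4 + (-540/6101) * a5 + (650/6101) * a6 + (325/6101) * a7 + (1090/6101) * a8 + (525/6101) * a9 + (650/6101) * a10) ^ 2 +
      (508112/30505) * (a3 + (-6075/127028) * a4 + (-6825/127028) * a5 + (-51875/508112) * a6 + (40415/254056) * a7 + (119505/508112) * a8 + (-6075/127028) * a9 + (-51875/508112) * a10) ^ 2 +
      (1475962/476355) * (a4 + (265305/737981) * a5 + (-20355/5903848) * a6 + (630735/2951924) * a7 + (-951395/5903848) * a8 + (166355/737981) * a9 + (-20355/5903848) * a10) ^ 2 +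
      (3021547/3689905) * (a5 + (6408495/6043094) * a6 + (1410705/3021547) * a7 + (4716625/6043094) * a8 + (3183660/3021547) * a9 + (6408495/6043094) * a10) ^ 2 +
      (1525193833/483447520) * (a6 + (-342253850/1525193833) * a7 + (-584514495/1525193833) * a8 + (-446341680/1525193833) * a9 + (-118527735/1525193833) * a10) ^ 2 +
      (16868711786/7625969165) * (a7 + (-8014756275/16868711786) * a8 + (-370613880/8434355893) * a9 + (-2909157725/8434355893) * a10) ^ 2 +
      (305230999027/84343558930) * (a8 + (-123156612480/305230999027) * a9 + (-56132023250/305230999027) * a10) ^ 2 +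
      (1782997675944/1526154995135) * (a9 + (-82479021860/74291569831) * a10) ^ 2 +
      (115239562307/371457849155) * (a10) ^ 2 := by
    ring
  rw [h1, h2] at key
  have hpos : 0 ≤ (22/5) * (a0 + (5/11) * a1 + (-5/22) * a2 + (-25/22) * a3 + (5/22) * a4 + (5/11) * a5 + (5/11) * a6 + (5/22) * a7 + (5/22) * a9 + (5/11) * a10) ^ 2 +
      (357/55) * (a1 + (-10/119) * a2 + (-160/119) * a3 + (20/51) * a4 + (20/119) * a5 + (20/119) * a6 + (10/119) * a7 + (-55/357) * a8 + (20/51) * a9 + (20/119) * a10) ^ 2 +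
      (6101/1190) * (a2 + (4915/6101) * a3 + (525/6101) * a4 + (-540/6101) * a5 + (650/6101) * a6 + (325/6101) * a7 + (1090/6101) * a8 + (525/6101) * a9 + (650/6101) * a10) ^ 2 +
      (508112/30505) * (a3 + (-6075/127028) * a4 + (-6825/127028) * a5 + (-51875/508112) * a6 + (40415/254056) * a7 + (119505/508112) * a8 + (-6075/127028) * a9 + (-51875/508112) * a10) ^ 2 +
      (1475962/476355) * (a4 + (265305/737981) * a5 + (-20355/5903848) * a6 + (630735/2951924) * a7 + (-951395/5903848) * a8 + (166355/737981) * a9 + (-20355/5903848) * a10) ^ 2 +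
      (3021547/3689905) * (a5 + (6408495/6043094) * a6 + (1410705/3021547) * a7 + (4716625/6043094) * a8 + (3183660/3021547) * a9 + (6408495/6043094) * a10) ^ 2 +
      (1525193833/483447520) * (a6 + (-342253850/1525193833) * a7 + (-584514495/1525193833) * a8 + (-446341680/1525193833) * a9 + (-118527735/1525193833) * a10) ^ 2 +
      (16868711786/7625969165) * (a7 + (-8014756275/16868711786) * a8 + (-370613880/8434355893) * a9 + (-2909157725/8434355893) * a10) ^ 2 +
      (305230999027/84343558930) * (a8 + (-123156612480/305230999027) * a9 + (-56132023250/305230999027) * a10) ^ 2 +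
      (1782997675944/1526154995135) * (a9 + (-82479021860/74291569831) * a10) ^ 2 +
      (115239562307/371457849155) * (a10) ^ 2 := by
    positivity
  linarith

theorem cert_two (a0 a1 a2 a3 a4 a5 a6 a7 a8 a9 a10 t : ℝ)
    (h1 : a0 + a1 + a2 + a3 + a4 + a5 + a6 + a7 + a8 + a9 + a10 + t = 0)
    (h2 : a1 + (-2) * a3 + a5 + (-1) * a8 + t = 0) :
    (3/2) * (a0 ^ 2 + a1 ^ 2 + a2 ^ 2 + a3 ^ 2 + a4 ^ 2 + a5 ^ 2 + a6 ^ 2 + a7 ^ 2 + a8 ^ 2 + a9 ^ 2 + a10 ^ 2 + t ^ 2) ≤ (a0 - a1) ^ 2 + (a0 - a2) ^ 2 + (a0 - a4) ^ 2 + (a0 - a9) ^ 2 + (a1 - a5) ^ 2 + (a1 - a6) ^ 2 + (a1 - a10) ^ 2 + (a2 - a3) ^ 2 + (a2 - a5) ^ 2 + (a2 - a7) ^ 2 + (a2 - a8) ^ 2 + (a3 - a8) ^ 2 + (a4 - a6) ^ 2 + (a4 - a8) ^ 2 + (a4 - a10) ^ 2 + (a6 - a7) ^ 2 + (a6 - a8) ^ 2 + (a6 - a9) ^ 2 + (a7 - a8) ^ 2 + (a7 - a10) ^ 2 + (a8 - a9) ^ 2 + (a9 - a10) ^ 2 + 50 * (a1 - t) ^ 2 := by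
  have key : (a0 - a1) ^ 2 + (a0 - a2) ^ 2 + (a0 - a4) ^ 2 + (a0 - a9) ^ 2 + (a1 - a5) ^ 2 + (a1 - a6) ^ 2 + (a1 - a10) ^ 2 + (a2 - a3) ^ 2 + (a2 - a5) ^ 2 + (a2 - a7) ^ 2 + (a2 - a8) ^ 2 + (a3 - a8) ^ 2 + (a4 - a6) ^ 2 + (a4 - a8) ^ 2 + (a4 - a10) ^ 2 + (a6 - a7) ^ 2 + (a6 - a8) ^ 2 + (a6 - a9) ^ 2 + (a7 - a8) ^ 2 + (a7 - a10) ^ 2 + (a8 - a9) ^ 2 + (a9 - a10) ^ 2 + 50 * (a1 - t) ^ 2 - (3/2) * (a0 ^ 2 + a1 ^ 2 + a2 ^ 2 + a3 ^ 2 + a4 ^ 2 + a5 ^ 2 + a6 ^ 2 + a7 ^ 2 + a8 ^ 2 + a9 ^ 2 + a10 ^ 2 + t ^ 2) +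
      1 * (a0 + a1 + a2 + a3 + a4 + a5 + a6 + a7 + a8 + a9 + a10 + t) ^ 2 + 1 * (a1 + (-2) * a3 + a5 + (-1) * a8 + t) ^ 2 =
      (7/2) * (a0 + (2/7) * a3 + (2/7) * a5 + (2/7) * a6 + (2/7) * a7 + (2/7) * a8 + (2/7) * a10 + (2/7) * t) ^ 2 +
      (109/2) * (a1 + (2/109) * a2 + (-2/109) * a3 + (2/109) * a4 + (2/109) * a5 + (2/109) * a7 + (2/109) * a9 + (-96/109) * t) ^ 2 +
      (977/218) * (a2 + (4/977) * a3 + (214/977) * a4 + (-4/977) * a5 + (218/977) * a6 + (-4/977) * a7 + (214/977) * a9 + (218/977) * a10 + (410/977) * t) ^ 2 +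
      (71069/13678) * (a3 + (13874/71069) * a4 + (-17334/71069) * a5 + (9714/71069) * a6 + (10022/71069) * a7 + (23448/71069) * a8 + (13874/71069) * a9 + (9714/71069) * a10 + (-29738/71069) * t) ^ 2 +
      (436167/142138) * (a4 + (19474/48463) * a5 + (-50840/436167) * a6 + (119770/436167) * a7 + (-15856/145389) * a8 + (80822/436167) * a9 + (-50840/436167) * a10 + (269098/436167) * t) ^ 2 +
      (134851/96926) * (a5 + (100350/134851) * a6 + (51950/134851) * a7 + (25868/134851) * a8 + (97370/134851) * a9 + (100350/134851) * a10 + (127136/134851) * t) ^ 2 +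
      (7480867/2427318) * (a6 + (-1656404/7480867) * a7 + (-1839036/7480867) * a8 + (-2521900/7480867) * a9 + (-1014746/7480867) * a10 + (-397142/7480867) * t) ^ 2 +
      (37457857/14961734) * (a7 + (-10564972/37457857) * a8 + (1038950/37457857) * a9 + (-11594828/37457857) * a10 + (12686106/37457857) * t) ^ 2 +
      (387732001/74915714) * (a8 + (-52529280/387732001) * a9 + (-5917626/387732001) * a10 + (43855316/387732001) * t) ^ 2 +
      (1388637335/775464002) * (a9 + (-181319508/277727467) * a10 + (92424314/277727467) * t) ^ 2 +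
      (567052325/555454934) * (a10 + (37664098/81007475) * t) ^ 2 +
      (494843391/162014950) * (t) ^ 2 := by
    ring
  rw [h1, h2] at key
  have hpos : 0 ≤ (7/2) * (a0 + (2/7) * a3 + (2/7) * a5 + (2/7) * a6 + (2/7) * a7 + (2/7) * a8 + (2/7) * a10 + (2/7) * t) ^ 2 +
      (109/2) * (a1 + (2/109) * a2 + (-2/109) * a3 + (2/109) * a4 + (2/109) * a5 + (2/109) * a7 + (2/109) * a9 + (-96/109) * t) ^ 2 +
      (977/218) * (a2 + (4/977) * a3 + (214/977) * a4 + (-4/977) * a5 + (218/977) * a6 + (-4/977) * a7 + (214/977) * a9 + (218/977) * a10 + (410/977) * t) ^ 2 +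
      (71069/13678) * (a3 + (13874/71069) * a4 + (-17334/71069) * a5 + (9714/71069) * a6 + (10022/71069) * a7 + (23448/71069) * a8 + (13874/71069) * a9 + (9714/71069) * a10 + (-29738/71069) * t) ^ 2 +
      (436167/142138) * (a4 + (19474/48463) * a5 + (-50840/436167) * a6 + (119770/436167) * a7 + (-15856/145389) * a8 + (80822/436167) * a9 + (-50840/436167) * a10 + (269098/436167) * t) ^ 2 +
      (134851/96926) * (a5 + (100350/134851) * a6 + (51950/134851) * a7 + (25868/134851) * a8 + (97370/134851) * a9 + (100350/134851) * a10 + (127136/134851) * t) ^ 2 +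
      (7480867/2427318) * (a6 + (-1656404/7480867) * a7 + (-1839036/7480867) * a8 + (-2521900/7480867) * a9 + (-1014746/7480867) * a10 + (-397142/7480867) * t) ^ 2 +
      (37457857/14961734) * (a7 + (-10564972/37457857) * a8 + (1038950/37457857) * a9 + (-11594828/37457857) * a10 + (12686106/37457857) * t) ^ 2 +
      (387732001/74915714) * (a8 + (-52529280/387732001) * a9 + (-5917626/387732001) * a10 + (43855316/387732001) * t) ^ 2 +
      (1388637335/775464002) * (a9 + (-181319508/277727467) * a10 + (92424314/277727467) * t) ^ 2 +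
      (567052325/555454934) * (a10 + (37664098/81007475) * t) ^ 2 +
      (494843391/162014950) * (t) ^ 2 := by
    positivity
  linarith

theorem G_connected : G.Connected := by
  have h : ∀ i : Fin 11, G.Reachable 0 i := by
    have e : ∀ i j : Fin 11, A i j = 1 → G.Reachable i j := fun i j h =>
      SimpleGraph.Adj.reachable (G := G) h
    intro i
    fin_cases i
    · exact SimpleGraph.Reachable.refl _
    · exact e 0 1 (by decide)
    · exact e 0 2 (by decide)
    · exact (e 0 2 (by decide)).trans (e 2 3 (by decide))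
    · exact e 0 4 (by decide)
    · exact (e 0 1 (by decide)).trans (e 1 5 (by decide))
    · exact (e 0 1 (by decide)).trans (e 1 6 (by decide))
    · exact (e 0 2 (by decide)).trans (e 2 7 (by decide))
    · exact (e 0 2 (by decide)).trans (e 2 8 (by decide))
    · exact e 0 9 (by decide)
    · exact (e 0 1 (by decide)).trans (e 1 10 (by decide))
  exact { preconnected := fun i j => (h i).symm.trans (h j), nonempty := ⟨0⟩ }

/-- eigenvector of `G` for `3 - √2`, with `r = √2` -/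
noncomputable def fG (r : ℝ) : Fin 11 → ℝ :=
  ![3 + r, 1 + 5 * r, -2 - 3 * r, -13 - 9 * r, 3 + r, 3 + r, -2 + 4 * r, 0, -3 - r, 3 + r, 7]

theorem fG_eig (r : ℝ) (hr : r ^ 2 = 2) (i : Fin 11) :
    ∑ j, (A i j : ℝ) * (fG r i - fG r j) = (3 - r) * fG r i := by
  fin_cases i <;> simp [A, fG, Fin.sum_univ_succ] <;> nlinarith

/-- approximate eigenvector used in the certificate for `G` -/
def pG : Fin 11 → ℝ := ![1, 2, -1, -6, 1, 1, 1, 0, -1, 1, 1]

theorem sqrt_two_bounds : (1.4 : ℝ) < Real.sqrt 2 ∧ Real.sqrt 2 < 1.42 := by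
  constructor
  · rw [Real.lt_sqrt (by norm_num)]; norm_num
  · rw [Real.sqrt_lt' (by norm_num)]; norm_num

theorem step_one : ∃ Φ : Fin 11 → ℝ, IsFiedlerVector (unitWeight G) Φ ∧
    ∀ u, u ≠ 1 → Φ u < Φ 1 := by
  obtain ⟨hr1, hr2⟩ := sqrt_two_bounds
  have hr : Real.sqrt 2 ^ 2 = 2 := Real.sq_sqrt (by norm_num)
  have hf : laplacian (unitWeight G) *ᵥ fG (Real.sqrt 2) = (3 - Real.sqrt 2) • fG (Real.sqrt 2) := by
    funext i
    rw [lap_apply, Pi.smul_apply, smul_eq_mul, ← fG_eig _ hr i]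
    exact Finset.sum_congr rfl fun j _ => by rw [unitWeight_eq]
  obtain ⟨c, hc, hF⟩ := fiedler_of_cert (unitWeight G)
    (fun i j => by rw [unitWeight_eq, unitWeight_eq, A_symm]) pG (fG (Real.sqrt 2))
    (3 - Real.sqrt 2) (8 / 5) (by linarith) hf
    (by simp [dotProduct, fG, Fin.sum_univ_succ]; ring)
    (by
      intro h
      have := congrFun h 10
      simp [fG] at this)
    (by linarith)
    (by
      intro h h1 h2
      have e1 : h ⬝ᵥ (laplacian (unitWeight G) *ᵥ h) = ∑ i, h i * ∑ j, (A i j : ℝ) * (h i - h j) := by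
        unfold dotProduct
        refine Finset.sum_congr rfl fun i _ => ?_
        rw [lap_apply]
        congr 1
        exact Finset.sum_congr rfl fun j _ => by rw [unitWeight_eq]
      rw [e1, energy]
      have e2 : h ⬝ᵥ h = h 0 ^ 2 + h 1 ^ 2 + h 2 ^ 2 + h 3 ^ 2 + h 4 ^ 2 + h 5 ^ 2 + h 6 ^ 2 +
          h 7 ^ 2 + h 8 ^ 2 + h 9 ^ 2 + h 10 ^ 2 := by
        simp [dotProduct, Fin.sum_univ_succ]; ring
      rw [e2]
      refine cert_one (h 0) (h 1) (h 2) (h 3) (h 4) (h 5) (h 6) (h 7) (h 8) (h 9) (h 10) ?_ ?_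
      · rw [← h1]; simp [dotProduct, Fin.sum_univ_succ]; ring
      · rw [← h2]; simp [dotProduct, pG, Fin.sum_univ_succ]; ring)
  refine ⟨c • fG (Real.sqrt 2), hF, ?_⟩
  intro u hu
  rw [Pi.smul_apply, Pi.smul_apply, smul_eq_mul, smul_eq_mul]
  apply mul_lt_mul_of_pos_left _ hc
  fin_cases u <;> simp [fG] at hu ⊢ <;> linarith

/-- the weight of the pendant edge -/
noncomputable def xx : ℝ := 38195289578072341 / 171480118161128

/-- eigenvector (for the eigenvalue `39/28`) of the graph with the pendant edge -/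
noncomputable def fH : Option (Fin 11) → ℝ
  | some i => (![353219219320996, 2919726328510279, -1130871473553248, -4670669803650368,
      -433980945149360, 2946349172870404, -181958168694092, -1003221210909344,
      -1704892335805904, -433980945149360, 402180963896740] : Fin 11 → ℝ) i
  | none => 2938099198313257

/-- approximate eigenvector used in the certificate for the graph with the pendant edge -/
noncomputable def pH : Option (Fin 11) → ℝ
  | some i => (![0, 1, 0, -2, 0, 1, 0, 0, -1, 0, 0] : Fin 11 → ℝ) i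
  | none => 1

theorem pend_symm (x : ℝ) (i j : Option (Fin 11)) :
    pendantWeight G 1 x i j = pendantWeight G 1 x j i := by
  rcases i with _ | i <;> rcases j with _ | j
  · rfl
  · rfl
  · rfl
  · rw [pendantWeight_eq, pendantWeight_eq, A_symm]

theorem pend_none_some (x : ℝ) (j : Fin 11) :
    pendantWeight G 1 x none (some j) = if j = 1 then x else 0 := by
  unfold pendantWeight
  by_cases h : j = 1 <;> simp [h]

theorem pend_some_none (x : ℝ) (i : Fin 11) :
    pendantWeight G 1 x (some i) none = if i = 1 then x else 0 := by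
  unfold pendantWeight
  by_cases h : i = 1 <;> simp [h]

theorem lap_pend_none (x : ℝ) (f : Option (Fin 11) → ℝ) :
    (laplacian (pendantWeight G 1 x) *ᵥ f) none = x * (f none - f (some 1)) := by
  rw [lap_apply, Fintype.sum_option]
  have : ∀ j : Fin 11, pendantWeight G 1 x none (some j) * (f none - f (some j)) =
      if j = 1 then x * (f none - f (some 1)) else 0 := by
    intro j
    rw [pend_none_some]
    split_ifs with h
    · rw [h]
    · ring
  rw [Finset.sum_congr rfl (fun j _ => this j), Finset.sum_ite_eq']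
  simp

theorem lap_pend_some (x : ℝ) (f : Option (Fin 11) → ℝ) (i : Fin 11) :
    (laplacian (pendantWeight G 1 x) *ᵥ f) (some i) =
      (if i = 1 then x * (f (some 1) - f none) else 0) +
        ∑ j, (A i j : ℝ) * (f (some i) - f (some j)) := by
  rw [lap_apply, Fintype.sum_option, pend_some_none]
  congr 1
  · split_ifs with h
    · rw [h]
    · ring
  · exact Finset.sum_congr rfl fun j _ => by rw [pendantWeight_eq]

theorem fH_eig : laplacian (pendantWeight G 1 xx) *ᵥ fH = (39 / 28 : ℝ) • fH := by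
  funext i
  rcases i with _ | i
  · rw [lap_pend_none, Pi.smul_apply, smul_eq_mul]
    simp only [fH, xx]
    norm_num
  · rw [lap_pend_some, Pi.smul_apply, smul_eq_mul]
    fin_cases i <;> simp [A, fH, xx, Fin.sum_univ_succ] <;> norm_num

theorem step_two : ∃ Ψ : Option (Fin 11) → ℝ, IsFiedlerVector (pendantWeight G 1 xx) Ψ ∧
    ¬ IsExtremum Ψ none := by
  obtain ⟨c, hc, hF⟩ := fiedler_of_cert (pendantWeight G 1 xx) (pend_symm xx) pH fH
    (39 / 28) (3 / 2) (by norm_num) fH_eig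
    (by
      simp only [dotProduct, Fintype.sum_option, fH]
      simp [Fin.sum_univ_succ]
      norm_num)
    (by
      intro h
      have := congrFun h none
      simp [fH] at this)
    (by norm_num)
    (by
      intro h h1 h2
      have e1 : h ⬝ᵥ (laplacian (pendantWeight G 1 xx) *ᵥ h) =
          (∑ i : Fin 11, h (some i) * ∑ j, (A i j : ℝ) * (h (some i) - h (some j))) +
            xx * (h (some 1) - h none) ^ 2 := by
        unfold dotProduct
        rw [Fintype.sum_option, lap_pend_none]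
        have : ∀ i : Fin 11, h (some i) * (laplacian (pendantWeight G 1 xx) *ᵥ h) (some i) =
            (if i = 1 then h (some 1) * (xx * (h (some 1) - h none)) else 0) +
              h (some i) * ∑ j, (A i j : ℝ) * (h (some i) - h (some j)) := by
          intro i
          rw [lap_pend_some, mul_add]
          congr 1
          split_ifs with hi
          · rw [hi]
          · ring
        rw [Finset.sum_congr rfl (fun i _ => this i), Finset.sum_add_distrib,
          Finset.sum_ite_eq']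
        simp only [Finset.mem_univ, if_true]
        ring
      rw [e1, energy (fun i => h (some i))]
      have e2 : h ⬝ᵥ h = h (some 0) ^ 2 + h (some 1) ^ 2 + h (some 2) ^ 2 + h (some 3) ^ 2 +
          h (some 4) ^ 2 + h (some 5) ^ 2 + h (some 6) ^ 2 + h (some 7) ^ 2 + h (some 8) ^ 2 +
          h (some 9) ^ 2 + h (some 10) ^ 2 + h none ^ 2 := by
        simp [dotProduct, Fin.sum_univ_succ]; ring
      rw [e2]
      have h3 := cert_two (h (some 0)) (h (some 1)) (h (some 2)) (h (some 3)) (h (some 4))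
        (h (some 5)) (h (some 6)) (h (some 7)) (h (some 8)) (h (some 9)) (h (some 10)) (h none)
        (by rw [← h1]; simp [dotProduct, Fin.sum_univ_succ]; ring)
        (by rw [← h2]; simp [dotProduct, pH, Fin.sum_univ_succ]; ring)
      have h4 : 50 * (h (some 1) - h none) ^ 2 ≤ xx * (h (some 1) - h none) ^ 2 := by
        apply mul_le_mul_of_nonneg_right _ (sq_nonneg _)
        unfold xx
        norm_num
      linarith)
  refine ⟨c • fH, hF, ?_⟩
  rintro (h | h)
  · have := h (some 5)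
    rw [Pi.smul_apply, Pi.smul_apply, smul_eq_mul, smul_eq_mul] at this
    have := le_of_mul_le_mul_left this hc
    simp [fH] at this
    norm_num at this
  · have := h (some 3)
    rw [Pi.smul_apply, Pi.smul_apply, smul_eq_mul, smul_eq_mul] at this
    have := le_of_mul_le_mul_left this hc
    simp [fH] at this
    norm_num at this

/-- **Main theorem.** There are an unweighted connected graph `G` (on 11 vertices), a vertex `v`
which is the unique maximum of the Fiedler vector `Φ` of `G`, and a weight `x > 0` such that, for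
the graph obtained from `G` by attaching a pendant edge of weight `x` at `v`, the new vertex is not
an extremum of the Fiedler vector `Ψ`.  In both graphs the second Laplacian eigenvalue is
simple. -/
theorem result : ∃ (G : SimpleGraph (Fin 11)) (v : Fin 11) (Φ : Fin 11 → ℝ) (x : ℝ)
    (Ψ : Option (Fin 11) → ℝ), G.Connected ∧ IsFiedlerVector (unitWeight G) Φ ∧
      (∀ u, u ≠ v → Φ u < Φ v) ∧ 0 < x ∧ IsFiedlerVector (pendantWeight G v x) Ψ ∧
      ¬ IsExtremum Ψ none := by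
  obtain ⟨Φ, h1, h2⟩ := step_one
  obtain ⟨Ψ, h3, h4⟩ := step_two
  exact ⟨G, 1, Φ, xx, Ψ, G_connected, h1, h2, by unfold xx; norm_num, h3, h4⟩

end Pool.Agent.Results.MP_a456c8_co.PendantNotExtremum
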